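import Mathlib

open Cardinal Ordinal

namespace Pool.Agent.Results.MP_2e9b9b_lc.ConverseSteppingUp

universe u

/-- The Generalized Continuum Hypothesis: `2 ^ κ = κ⁺` for every infinite cardinal `κ`. -/
def GCH : Prop :=
  ∀ κ : Cardinal.{u}, ℵ₀ ≤ κ → (2 : Cardinal.{u}) ^ κ = Order.succ κ

/-- The ordinary partition relation `κ → (η_k ; k ∈ Γ)^m`.
The cardinal `κ` is represented by the well-ordered set `κ.ord.ToType` of its initial ordinal. -/
def Arrow (κ : Cardinal.{u}) (m : ℕ) {Γ : Type u} (η : Γ → Ordinal.{u}) : Prop :=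
  ∀ c : {s : Finset κ.ord.ToType // s.card = m} → Γ,
    ∃ (k : Γ) (H : Set κ.ord.ToType),
      Ordinal.type (α := H) (· < ·) = η k ∧
      ∀ s : {s : Finset κ.ord.ToType // s.card = m},
        (↑s.1 : Set κ.ord.ToType) ⊆ H → c s = k

/-- A subset of a well-order contains a subset whose order type is the initial ordinal of its
cardinality. -/
lemma exists_subset_type {W : Type u} [LinearOrder W] [WellFoundedLT W] (K : Set W)
    (l : Cardinal.{u}) (hl : #K = l) :
    ∃ H : Set W, H ⊆ K ∧ Ordinal.type (α := H) (· < ·) = l.ord := by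
  have h1 : l.ord ≤ Ordinal.type (α := K) (· < ·) := by
    rw [Cardinal.ord_le, Ordinal.card_type, hl]
  have h2 : Ordinal.type (α := l.ord.ToType) (· < ·) ≤ Ordinal.type (α := K) (· < ·) := by
    rwa [Ordinal.type_toType]
  obtain ⟨f⟩ := Ordinal.type_le_iff'.1 h2
  let F : l.ord.ToType → W := fun x => (f x).1
  have hF : StrictMono F := by
    intro a b hab
    exact f.map_rel_iff.2 hab
  refine ⟨Set.range F, ?_, ?_⟩
  · rintro _ ⟨x, rfl⟩
    exact (f x).2
  · have e : l.ord.ToType ≃o Set.range F := hF.orderIso F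
    have h3 : Ordinal.type (α := l.ord.ToType) (· < ·) =
        Ordinal.type (α := Set.range F) (· < ·) := Ordinal.type_eq.2 ⟨e.toRelIsoLT⟩
    rw [← h3]
    exact Ordinal.type_toType l.ord

theorem result (hGCH : GCH.{u}) (κ : Cardinal.{u}) (hκ : ℵ₀ ≤ κ) (n : ℕ) (hn : 2 ≤ n)
    (Γ : Type u) (hΓ : 2 ≤ #Γ) (hΓκ : #Γ < κ)
    (η : Γ → Cardinal.{u}) (hη : ∀ k, (n : Cardinal.{u}) < η k ∧ η k ≤ κ)
    (h : ¬ Arrow κ n (fun k => (η k).ord)) :
    ¬ Arrow ((2 : Cardinal.{u}) ^ κ) (n + 1) (fun k => Order.succ (η k).ord) := by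
  intro hA
  unfold Arrow at h
  push Not at h
  obtain ⟨c, hc⟩ := h
  -- injections of the proper initial segments into `κ`
  have hinj : ∀ α : ((2 : Cardinal.{u}) ^ κ).ord.ToType, Nonempty (Set.Iio α ↪ κ.ord.ToType) := by
    intro α
    rw [← Cardinal.le_def]
    have h1 : #(Set.Iio α) < (2 : Cardinal.{u}) ^ κ := by
      have h2 := Ordinal.typein_lt_self α
      rw [Cardinal.lt_ord] at h2
      exact h2
    have h3 : #(Set.Iio α) < Order.succ κ := lt_of_lt_of_eq h1 (hGCH κ hκ)
    rw [Cardinal.mk_toType, Cardinal.card_ord]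
    exact Order.lt_succ_iff.1 h3
  let g := fun α => Classical.choice (hinj α)
  -- the stepped-up colouring
  have hcard : ∀ (s : Finset ((2 : Cardinal.{u}) ^ κ).ord.ToType) (hs : s.card = n + 1)
      (hne : s.Nonempty),
      ((s.subtype (fun x => x ∈ Set.Iio (s.max' hne))).map (g (s.max' hne))).card = n := by
    intro s hs hne
    rw [Finset.card_map, Finset.card_subtype]
    have : s.filter (fun x => x ∈ Set.Iio (s.max' hne)) = s.erase (s.max' hne) := by
      ext x
      simp only [Finset.mem_filter, Set.mem_Iio, Finset.mem_erase]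
      constructor
      · rintro ⟨h1, h2⟩
        exact ⟨h2.ne, h1⟩
      · rintro ⟨h1, h2⟩
        exact ⟨h2, lt_of_le_of_ne (Finset.le_max' _ _ h2) h1⟩
    rw [this, Finset.card_erase_of_mem (Finset.max'_mem _ _), hs]
    rfl
  have hne : ∀ s : {s : Finset ((2 : Cardinal.{u}) ^ κ).ord.ToType // s.card = n + 1},
      s.1.Nonempty := by
    intro s
    rw [← Finset.card_pos, s.2]
    omega
  let d : {s : Finset ((2 : Cardinal.{u}) ^ κ).ord.ToType // s.card = n + 1} → Γ := fun s =>
    c ⟨(s.1.subtype (fun x => x ∈ Set.Iio (s.1.max' (hne s)))).map (g (s.1.max' (hne s))),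
      hcard s.1 s.2 (hne s)⟩
  obtain ⟨k, H, hH, hd⟩ := hA d
  replace hH : Ordinal.type (α := H) (· < ·) = Order.succ (η k).ord := hH
  -- the top element of `H`
  have hlt : (η k).ord < Ordinal.type (α := H) (· < ·) := by
    rw [hH]; exact Order.lt_succ _
  let top : H := Ordinal.enum (α := H) (· < ·) ⟨(η k).ord, hlt⟩
  have htop : ∀ x : H, x ≤ top := by
    intro x
    have h1 : Ordinal.typein (α := H) (· < ·) x < Order.succ (η k).ord := by
      rw [← hH]; exact Ordinal.typein_lt_type _ _
    have h2 : Ordinal.typein (α := H) (· < ·) x ≤ Ordinal.typein (α := H) (· < ·) top := by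
      rw [Ordinal.typein_enum]
      exact Order.lt_succ_iff.1 h1
    by_contra hcon
    exact absurd h2 (not_le.2 ((Ordinal.typein_lt_typein (· < ·)).2 (not_le.1 hcon)))
  -- the image of the rest of `H` under the injection attached to the top element
  let K : Set κ.ord.ToType :=
    Set.range (fun x : {x : H // x < top} => g top.1 ⟨x.1.1, x.2⟩)
  have hK : #K = η k := by
    have h1 : #K = #{x : H // x < top} := by
      apply Cardinal.mk_range_eq
      intro x y hxy
      have h2 := congrArg Subtype.val ((g top.1).injective hxy)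
      exact Subtype.ext (Subtype.ext h2)
    rw [h1]
    have h2 := Ordinal.card_typein (α := H) (r := (· < ·)) top
    rw [Ordinal.typein_enum] at h2
    rw [← Cardinal.card_ord (η k)]
    exact h2.symm
  obtain ⟨H', hH'K, hH'⟩ := exists_subset_type K (η k) hK
  obtain ⟨s, hsH', hsk⟩ := hc k H' hH'
  apply hsk
  -- pull `s` back to a subset of `H`
  have hpre : ∀ w ∈ s.1, ∃ x : {x : H // x < top}, g top.1 ⟨x.1.1, x.2⟩ = w := by
    intro w hw
    exact hH'K (hsH' hw)
  classical
  let t0 : Finset ((2 : Cardinal.{u}) ^ κ).ord.ToType :=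
    s.1.attach.image (fun w => (Classical.choose (hpre w.1 w.2)).1.1)
  have ht0 : ∀ x ∈ t0, x ∈ H ∧ x < top.1 := by
    intro x hx
    simp only [t0, Finset.mem_image, Finset.mem_attach, true_and, Subtype.exists] at hx
    obtain ⟨w, hw, rfl⟩ := hx
    exact ⟨(Classical.choose (hpre w hw)).1.2, (Classical.choose (hpre w hw)).2⟩
  have htopnot : top.1 ∉ t0 := fun hx => lt_irrefl _ (ht0 _ hx).2
  let t : Finset ((2 : Cardinal.{u}) ^ κ).ord.ToType := insert top.1 t0
  have htmax : ∀ hne' : t.Nonempty, t.max' hne' = top.1 := by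
    intro hne'
    apply le_antisymm
    · apply Finset.max'_le
      intro y hy
      rcases Finset.mem_insert.1 hy with rfl | hy
      · exact le_rfl
      · exact (ht0 y hy).2.le
    · exact Finset.le_max' _ _ (Finset.mem_insert_self _ _)
  have hmap : ∀ (a : ((2 : Cardinal.{u}) ^ κ).ord.ToType), a = top.1 →
      (t.subtype (fun x => x ∈ Set.Iio a)).map (g a) = s.1 := by
    rintro a rfl
    ext w
    simp only [Finset.mem_map, Finset.mem_subtype, Subtype.exists, Set.mem_Iio]
    constructor
    · rintro ⟨x, hx, hxt, rfl⟩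
      rcases Finset.mem_insert.1 hxt with rfl | hxt
      · exact absurd hx (lt_irrefl _)
      · simp only [t0, Finset.mem_image, Finset.mem_attach, true_and, Subtype.exists] at hxt
        obtain ⟨w, hw, rfl⟩ := hxt
        rw [Classical.choose_spec (hpre w hw)]
        exact hw
    · intro hw
      refine ⟨(Classical.choose (hpre w hw)).1.1, (Classical.choose (hpre w hw)).2, ?_,
        Classical.choose_spec (hpre w hw)⟩
      apply Finset.mem_insert_of_mem
      simp only [t0, Finset.mem_image, Finset.mem_attach, true_and, Subtype.exists]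
      exact ⟨w, hw, rfl⟩
  have htcard : t.card = n + 1 := by
    have h1 : ((t.subtype (fun x => x ∈ Set.Iio top.1)).map (g top.1)).card = n := by
      rw [hmap top.1 rfl]; exact s.2
    rw [Finset.card_map, Finset.card_subtype] at h1
    have h2 : t.filter (fun x => x ∈ Set.Iio top.1) = t0 := by
      ext x
      simp only [Finset.mem_filter, Set.mem_Iio, t, Finset.mem_insert]
      constructor
      · rintro ⟨rfl | h1, h2⟩
        · exact absurd h2 (lt_irrefl _)
        · exact h1
      · intro h1
        exact ⟨Or.inr h1, (ht0 _ h1).2⟩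
    rw [h2] at h1
    rw [Finset.card_insert_of_notMem htopnot, h1]
  have hfin := hd ⟨t, htcard⟩ (by
    intro x hx
    rcases Finset.mem_insert.1 (Finset.mem_coe.1 hx) with rfl | hx
    · exact top.2
    · exact (ht0 x hx).1)
  rw [← hfin]
  simp only [d]
  congr 1
  apply Subtype.ext
  exact (hmap _ (htmax _)).symm

end Pool.Agent.Results.MP_2e9b9b_lc.ConverseSteppingUp
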